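import Pool.Agent.H55.PM.Targets

/-!
# Restricted partition functions: unique systems and growth orders (MP_9198c9_nt)

Definitions. `PS`, `pc`, `cnt` are those of `Pool.Agent.H55.PM.Targets`.
-/

set_option autoImplicit false

open Finset

namespace Pool.Agent.H25.PG

open Pool.Agent.H55.PM

/-- a representation of `n`: `r a` is the multiplicity of the part `a` -/
def Rep (A M : Set ℕ) (n : ℕ) (r : ℕ →₀ ℕ) : Prop :=
  (∀ a, r a ≠ 0 → a ∈ A ∧ r a ∈ M) ∧ r.sum (fun a k => k * a) = n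

/-- the digit of `n` at position `j` in base `g` -/
def dg (g j n : ℕ) : ℕ := n / g ^ j % g

/-- the numbers whose digits in base `g` vanish outside `F` -/
def DS (g : ℕ) (F : Set ℕ) : Set ℕ := {n | ∀ j, j ∉ F → dg g j n = 0}

/-- every nonnegative integer is `e + f` with `e` in `E`, `f` in `F` in exactly one way -/
def Tile (E F : Set ℕ) : Prop := ∀ k : ℕ, ∃! p : ℕ × ℕ, p.1 ∈ E ∧ p.2 ∈ F ∧ p.1 + p.2 = k

/-- the powers of `g` with exponent in `E` -/
def PA (g : ℕ) (E : Set ℕ) : Set ℕ := {a | ∃ e ∈ E, a = g ^ e}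

/-- the positive integers whose digits in base `g` vanish outside `F` -/
def PM (g : ℕ) (F : Set ℕ) : Set ℕ := {m | 0 < m ∧ m ∈ DS g F}

/-- the sums `e + f` -/
def SS (E F : Set ℕ) : Set ℕ := {k | ∃ e ∈ E, ∃ f ∈ F, e + f = k}

end Pool.Agent.H25.PG
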