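import Pool.Agent.H25.PG.Targets
import Pool.Agent.H19.PG.FI

/-!
# Every partition function of a finite set is `p_{A,M}` with infinite `A`, `M`
-/

set_option autoImplicit false

open Finset Filter

namespace Pool.Agent.H25.PG.GB

open Pool.Agent.H55.PM Pool.Agent.H25.PG

theorem dg_pow (g f j : ℕ) (hg : 2 ≤ g) (h : j ≠ f) : dg g j (g ^ f) = 0 := by
  unfold dg
  rcases lt_or_gt_of_ne h with h1 | h1
  · rw [Nat.pow_div h1.le (by omega)]
    obtain ⟨k, hk⟩ : ∃ k, f - j = k + 1 := ⟨f - j - 1, by omega⟩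
    rw [hk, pow_succ]
    simp
  · rw [Nat.div_eq_of_lt (Nat.pow_lt_pow_right (by omega) h1)]
    simp

theorem main (hPB : T_PB) (hTI : T_TI) (B : Finset ℕ) (hB : B.Nonempty) (hpos : ∀ b ∈ B, 0 < b) :
    ∃ A M : Set ℕ, A.Infinite ∧ M.Infinite ∧ (∀ a ∈ A, 0 < a) ∧ (∀ m ∈ M, 0 < m) ∧
      ∀ n, pc A M n = pc (B : Set ℕ) (Set.Ioi 0) n := by
  set g := B.sup id + 2 with hg
  have hg2 : 2 ≤ g := by omega
  have hlt : ∀ b ∈ B, b < g := by
    intro b hb
    have : b ≤ B.sup id := Finset.le_sup (f := id) hb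
    omega
  obtain ⟨b₀, hb₀⟩ := hB
  have hEinf : (IV V4).Infinite := by
    refine (Pool.Agent.H19.PG.V4c_inf.image
      ((Nat.pow_right_injective (le_refl 2)).injOn)).mono ?_
    rintro _ ⟨b, hb, rfl⟩
    intro c hc
    simp only [Nat.bitIndices_two_pow, List.mem_singleton] at hc
    rw [hc]
    exact hb
  have hFinf : (EV V4).Infinite := by
    refine (Pool.Agent.H19.PG.V4_inf.image
      ((Nat.pow_right_injective (le_refl 2)).injOn)).mono ?_
    rintro _ ⟨b, hb, rfl⟩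
    intro c hc
    simp only [Nat.bitIndices_two_pow, List.mem_singleton] at hc
    rw [hc]
    exact hb
  refine ⟨{c | ∃ b ∈ B, ∃ e ∈ IV V4, c = b * g ^ e}, PM g (EV V4), ?_, ?_, ?_, ?_, ?_⟩
  · have hinj : Function.Injective (fun e : ℕ => b₀ * g ^ e) := by
      intro e e' h
      have h1 : g ^ e = g ^ e' := Nat.eq_of_mul_eq_mul_left (hpos b₀ hb₀) h
      exact Nat.pow_right_injective hg2 h1
    refine (hEinf.image hinj.injOn).mono ?_
    rintro _ ⟨e, he, rfl⟩
    exact ⟨b₀, hb₀, e, he, rfl⟩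
  · refine (hFinf.image ((Nat.pow_right_injective hg2).injOn)).mono ?_
    rintro _ ⟨f, hf, rfl⟩
    refine ⟨Nat.pow_pos (by omega), fun j hj => ?_⟩
    exact dg_pow g f j hg2 (fun h => hj (h ▸ hf))
  · rintro c ⟨b, hb, e, he, rfl⟩
    exact Nat.mul_pos (hpos b hb) (Nat.pow_pos (by omega))
  · intro m hm
    exact hm.1
  · exact hPB g (IV V4) (EV V4) hg2 (hTI V4) B (fun b hb => ⟨hpos b hb, hlt b hb⟩)

end Pool.Agent.H25.PG.GB
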