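import Pool.Agent.H25.PG.Defs

/-!
# Restricted partition functions: unique systems and growth orders (MP_9198c9_nt): targets

Board pg_modules. Each row proves one of the propositions below.
-/

set_option autoImplicit false

open Finset Filter

namespace Pool.Agent.H25.PG

open Pool.Agent.H55.PM

/-! ## Digits -/

/-- D1. The digits of a sum of digits. -/
def T_D1 : Prop := ∀ (g : ℕ) (d : ℕ → ℕ) (K i : ℕ), 2 ≤ g → (∀ j, d j < g) →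
  dg g i (∑ j ∈ range K, d j * g ^ j) = if i < K then d i else 0

/-- D2. No carries. -/
def T_D2 : Prop := ∀ (g x y : ℕ), 2 ≤ g → (∀ j, dg g j x = 0 ∨ dg g j y = 0) →
  ∀ j, dg g j (x + y) = dg g j x + dg g j y

/-- D3. A number below `g ^ K` is the sum of its digits. -/
def T_D3 : Prop := ∀ (g K n : ℕ), 2 ≤ g → n < g ^ K → ∑ j ∈ range K, dg g j n * g ^ j = n

/-- D4. Shift of the digits. -/
def T_D4 : Prop := ∀ (g e q j : ℕ), 2 ≤ g → dg g j (g ^ e * q) = if j < e then 0 else dg g (j - e) q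

/-! ## Representations -/

/-- RB. Partitions and representations. -/
def T_RB : Prop := ∀ (A M : Set ℕ) (n : ℕ), (∀ a ∈ A, 0 < a) →
  {r | Rep A M n r}.Finite ∧ pc A M n = {r | Rep A M n r}.ncard

/-- CV. Convolution. -/
def T_CV : Prop := ∀ (A A' M : Set ℕ) (n : ℕ), (∀ a ∈ A, 0 < a) → (∀ a ∈ A', 0 < a) →
  Disjoint A A' → pc (A ∪ A') M n = ∑ x ∈ antidiagonal n, pc A M x.1 * pc A' M x.2

/-- SC. Scaling. -/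
def T_SC : Prop := ∀ (A M : Set ℕ) (b n : ℕ), 0 < b → (∀ a ∈ A, 0 < a) →
  pc {c | ∃ a ∈ A, c = b * a} M n = if b ∣ n then pc A M (n / b) else 0

open Classical in
/-- U. Unique representations. -/
def T_U : Prop := ∀ (g : ℕ) (E F : Set ℕ), 2 ≤ g →
  (∀ e ∈ E, ∀ e' ∈ E, ∀ f ∈ F, ∀ f' ∈ F, e + f = e' + f' → e = e') →
  ∀ n : ℕ, pc (PA g E) (PM g F) n = if n ∈ DS g (SS E F) then 1 else 0

/-- PB. The partition function of a finite set. -/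
def T_PB : Prop := ∀ (g : ℕ) (E F : Set ℕ), 2 ≤ g → Tile E F →
  ∀ B : Finset ℕ, (∀ b ∈ B, 0 < b ∧ b < g) →
  ∀ n : ℕ, pc {c | ∃ b ∈ B, ∃ e ∈ E, c = b * g ^ e} (PM g F) n = pc (B : Set ℕ) (Set.Ioi 0) n

/-- YC. The numbers with digits in `D`. -/
def T_YC : Prop := ∀ (D : Set ℕ) (J : ℕ),
  {y | y < 2 ^ J ∧ y ∈ DS 2 D}.ncard = 2 ^ (D ∩ Set.Iio J).ncard

/-- TI. The digits off `V` and the digits in `V`. -/
def T_TI : Prop := ∀ V : Set ℕ, Tile (IV V) (EV V)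

/-! ## Growth -/

/-- the powers of four -/
def V4 : Set ℕ := {v | ∃ t : ℕ, v = 4 ^ t}

/-- the exponents without binary digits in `V4`, selected by the thresholds `k` -/
def E1 (k : ℕ → ℕ) : Set ℕ := {e | e ∈ IV V4 ∧ ∃ t : ℕ, 1 ≤ t ∧ 2 ^ (2 * 4 ^ t) ≤ e ∧
  e < 2 ^ (2 * 4 ^ (t + 1)) ∧ e / 2 ^ (4 ^ t + 1) % 2 ^ t < k t}

/-- the number of `j < J` which are the sum of an element of `E1 k` and an element of `EV V4` -/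
noncomputable def dc (k : ℕ → ℕ) (J : ℕ) : ℕ := (SS (E1 k) (EV V4) ∩ Set.Iio J).ncard

/-- DE. Between `S_t = 2 ^ (2 * 4 ^ t)` and `S_(t+1)` the set has density about `k t / 2 ^ t`. -/
def T_DE : Prop := ∀ (k : ℕ → ℕ), (∀ t, k t ≤ 2 ^ t) → ∀ t J : ℕ, 2 ≤ t →
  2 ^ (2 * 4 ^ t) ≤ J → J ≤ 2 ^ (2 * 4 ^ (t + 1)) →
  |((dc k J : ℝ) - dc k (2 ^ (2 * 4 ^ t))) - (k t : ℝ) / 2 ^ t * (J - 2 ^ (2 * 4 ^ t))|
    ≤ (J : ℝ) / 2 ^ t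

/-- DL. Every pair of a lower and an upper density. -/
def T_DL : Prop := ∀ β α : ℝ, 0 ≤ β → β ≤ α → α ≤ 1 → ∃ k : ℕ → ℕ, ∀ ε : ℝ, 0 < ε →
  (∀ᶠ J : ℕ in atTop, (β - ε) * J ≤ dc k J ∧ (dc k J : ℝ) ≤ (α + ε) * J) ∧
  (∃ᶠ J : ℕ in atTop, (dc k J : ℝ) ≤ (β + ε) * J) ∧
  (∃ᶠ J : ℕ in atTop, (α - ε) * J ≤ dc k J)

/-- GQ. `K` copies of a part of the system. -/
def T_GQ : Prop := ∀ (E F E₁ : Set ℕ) (K : ℕ), Tile E F → E₁ ⊆ E → ∀ n : ℕ,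
  {y | y ≤ n / (K * (2 * K + 1) + 1) ∧ y ∈ DS 2 (SS E₁ F)}.ncard ^ K ≤
    pc (PA 2 E ∪ {c | ∃ i < K, ∃ e ∈ E₁, c = (2 * i + 3) * 2 ^ e}) (PM 2 F) n ∧
  pc (PA 2 E ∪ {c | ∃ i < K, ∃ e ∈ E₁, c = (2 * i + 3) * 2 ^ e}) (PM 2 F) n ≤
    {y | y ≤ n ∧ y ∈ DS 2 (SS E₁ F)}.ncard ^ K

/-- FI. Growth orders. -/
def T_FI : Prop := ∀ β α : ℝ, 0 ≤ β → β ≤ α → ∃ A M : Set ℕ,
  A.Infinite ∧ M.Infinite ∧ (∀ a ∈ A, 0 < a) ∧ (∀ m ∈ M, 0 < m) ∧ (∀ n : ℕ, 1 ≤ pc A M n) ∧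
  ∀ ε : ℝ, 0 < ε →
    (∀ᶠ n : ℕ in atTop, (n : ℝ) ^ (β - ε) ≤ pc A M n ∧ (pc A M n : ℝ) ≤ (n : ℝ) ^ (α + ε)) ∧
    (∃ᶠ n : ℕ in atTop, (pc A M n : ℝ) ≤ (n : ℝ) ^ (β + ε)) ∧
    (∃ᶠ n : ℕ in atTop, (n : ℝ) ^ (α - ε) ≤ pc A M n)

end Pool.Agent.H25.PG
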