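import Pool.Agent.H25.PG.Targets

/-!
# Classification of the pairs with exactly one representation (row WU)
-/

set_option autoImplicit false

open Finset

namespace Pool.Agent.H25.PG.WU

open Pool.Agent.H55.PM Pool.Agent.H25.PG

theorem dg_lt {g : ℕ} (hg : 2 ≤ g) (j n : ℕ) : dg g j n < g := Nat.mod_lt _ (by omega)

theorem dg_big {g : ℕ} {j n : ℕ} (h : n < g ^ j) : dg g j n = 0 := by
  simp [dg, Nat.div_eq_of_lt h]

theorem dg_zero (g j : ℕ) : dg g j 0 = 0 := by simp [dg]

/-- the situation of the proof -/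
structure Ctx (g : ℕ) (A M : Set ℕ) : Prop where
  hg : 2 ≤ g
  hA : ∀ a ∈ A, 0 < a
  hM : ∀ m ∈ M, 0 < m
  uq : ∀ n r r', Rep A M n r → Rep A M n r' → r = r'
  ex : ∀ n, ∃ r, Rep A M n r
  oneA : 1 ∈ A
  small : ∀ m, 0 < m → m < g → m ∈ M
  gA : g ∈ A
  gM : g ∉ M

/-- the exponents of the powers of `g` in a set -/
def ex (g : ℕ) (A : Set ℕ) : Set ℕ := {e | g ^ e ∈ A}

theorem rep_single {A M : Set ℕ} {a m : ℕ} (ha : a ∈ A) (hm : m ∈ M) :
    Rep A M (m * a) (Finsupp.single a m) := by
  constructor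
  · intro b hb
    rw [Finsupp.single_apply] at hb
    split_ifs at hb with h
    · subst h
      exact ⟨ha, by simpa using hm⟩
    · exact absurd rfl hb
  · rw [Finsupp.sum_single_index]
    simp

theorem rep_le {A M : Set ℕ} {n : ℕ} {r : ℕ →₀ ℕ} (h : Rep A M n r) (a : ℕ) : r a * a ≤ n := by
  rw [← h.2, Finsupp.sum]
  by_cases ha : a ∈ r.support
  · exact Finset.single_le_sum (f := fun x => r x * x) (fun _ _ => Nat.zero_le _) ha
  · rw [Finsupp.notMem_support_iff.mp ha]
    simp

theorem rep_erase {A M : Set ℕ} {n : ℕ} {r : ℕ →₀ ℕ} (h : Rep A M n r) (a : ℕ) :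
    Rep A M (n - r a * a) (r.erase a) := by
  constructor
  · intro b hb
    by_cases hba : b = a
    · subst hba
      simp at hb
    · rw [Finsupp.erase_ne hba] at hb ⊢
      exact h.1 b hb
  · have h1 : r = Finsupp.single a (r a) + r.erase a := (Finsupp.single_add_erase a r).symm
    have h2 : r.sum (fun a k => k * a) =
        (Finsupp.single a (r a)).sum (fun a k => k * a) + (r.erase a).sum (fun a k => k * a) := by
      conv_lhs => rw [h1]
      exact Finsupp.sum_add_index' (fun _ => Nat.zero_mul _) (fun _ _ _ => Nat.add_mul _ _ _)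
    rw [h.2, Finsupp.sum_single_index (by simp)] at h2
    omega

theorem rep_add {A M : Set ℕ} {n n' : ℕ} {r r' : ℕ →₀ ℕ} (h : Rep A M n r) (h' : Rep A M n' r')
    (hd : ∀ a, r a = 0 ∨ r' a = 0) : Rep A M (n + n') (r + r') := by
  constructor
  · intro b hb
    rw [Finsupp.add_apply] at hb ⊢
    rcases hd b with h0 | h0
    · rw [h0, Nat.zero_add] at hb ⊢
      exact h'.1 b hb
    · rw [h0, Nat.add_zero] at hb ⊢
      exact h.1 b hb
  · have h2 : (r + r').sum (fun a k => k * a) =
        r.sum (fun a k => k * a) + r'.sum (fun a k => k * a) :=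
      Finsupp.sum_add_index' (fun _ => Nat.zero_mul _) (fun _ _ _ => Nat.add_mul _ _ _)
    rw [h2, h.2, h'.2]

section

variable {g : ℕ} {A M : Set ℕ} (C : Ctx g A M)
include C

theorem gpos : 0 < g := by have := C.hg; omega

theorem oneM : 1 ∈ M := C.small 1 (by omega) (by have := C.hg; omega)

theorem E0 : 0 ∈ ex g A := by simpa [ex] using C.oneA

theorem E1' : 1 ∈ ex g A := by simpa [ex] using C.gA

theorem F0 : 0 ∈ ex g M := by simpa [ex] using oneM C

theorem pow_inj {e e' : ℕ} (h : g ^ e = g ^ e') : e = e' := Nat.pow_right_injective C.hg h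

theorem UQ {e e' f f' : ℕ} (he : e ∈ ex g A) (he' : e' ∈ ex g A) (hf : f ∈ ex g M)
    (hf' : f' ∈ ex g M) (h : e + f = e' + f') : e = e' ∧ f = f' := by
  have h1 := rep_single (A := A) (M := M) he hf
  have h2 := rep_single (A := A) (M := M) he' hf'
  rw [← pow_add, add_comm f e, h, add_comm e' f', pow_add] at h1
  have h3 := C.uq _ _ _ h1 h2
  have h4 : (Finsupp.single (g ^ e) (g ^ f)) (g ^ e) = (Finsupp.single (g ^ e') (g ^ f')) (g ^ e) := by
    rw [h3]
  rw [Finsupp.single_eq_same, Finsupp.single_apply] at h4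
  split_ifs at h4 with h5
  · have h6 := pow_inj C h5
    subst h6
    exact ⟨rfl, by omega⟩
  · exact absurd h4 (pow_pos (gpos C) _).ne'

/-- the digits of a sum of multiples of different powers of `g` -/
theorem sumdig (hD2 : T_D2) (hD4 : T_D4) (S : Finset ℕ) (r : ℕ → ℕ)
    (h1 : ∀ a ∈ S, ∃ e ∈ ex g A, a = g ^ e) (h2 : ∀ a ∈ S, r a ∈ DS g (ex g M)) :
    ∑ a ∈ S, r a * a ∈ DS g {j | ∃ e f, g ^ e ∈ S ∧ e ∈ ex g A ∧ f ∈ ex g M ∧ e + f = j} := by
  classical
  induction S using Finset.induction_on with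
  | empty =>
    intro j _
    rw [Finset.sum_empty]
    exact dg_zero g j
  | insert a S ha ih =>
    have ih' := ih (fun b hb => h1 b (Finset.mem_insert_of_mem hb))
      (fun b hb => h2 b (Finset.mem_insert_of_mem hb))
    rw [Finset.sum_insert ha]
    obtain ⟨e, he, hae⟩ := h1 a (Finset.mem_insert_self a S)
    have hra := h2 a (Finset.mem_insert_self a S)
    have hx : ∀ j, (¬ ∃ f ∈ ex g M, e + f = j) → dg g j (r a * a) = 0 := by
      intro j hj
      have hm : r a * a = g ^ e * r a := by rw [← hae, mul_comm]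
      rw [hm, hD4 g e (r a) j C.hg]
      split_ifs with hlt
      · rfl
      · apply hra
        intro hf
        exact hj ⟨j - e, hf, by omega⟩
    have hdis : ∀ j, dg g j (r a * a) = 0 ∨ dg g j (∑ a ∈ S, r a * a) = 0 := by
      intro j
      by_cases h : ∃ f ∈ ex g M, e + f = j
      · right
        apply ih'
        rintro ⟨e', f', h3, h4, h5, h6⟩
        obtain ⟨f, hf, hef⟩ := h
        have h7 := (UQ C he h4 hf h5 (by omega)).1
        subst h7
        rw [← hae] at h3
        exact ha h3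
      · exact Or.inl (hx j h)
    intro j hj
    rw [hD2 g _ _ C.hg hdis j, hx j, ih' j]
    · rintro ⟨e', f', h3, h4, h5, h6⟩
      exact hj ⟨e', f', Finset.mem_insert_of_mem h3, h4, h5, h6⟩
    · rintro ⟨f, hf, hef⟩
      exact hj ⟨e, f, by rw [← hae]; exact Finset.mem_insert_self a S, he, hf, hef⟩

end

open Classical in
/-- the multiplicity of `g ^ e` in the digital representation of `n` -/
noncomputable def cc (g : ℕ) (F : Set ℕ) (k e n : ℕ) : ℕ :=
  ∑ f ∈ range (k + 1), (if f ∈ F then dg g (e + f) n else 0) * g ^ f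

open Classical in
/-- the digital representation of `n` -/
noncomputable def ph (g : ℕ) (E F : Set ℕ) (k n : ℕ) : ℕ →₀ ℕ :=
  ∑ e ∈ (range (k + 1)).filter (fun e => e ∈ E), Finsupp.single (g ^ e) (cc g F k e n)

section

variable {g : ℕ} {A M : Set ℕ}

theorem dg_cc (hD1 : T_D1) (hg : 2 ≤ g) (F : Set ℕ) (k e n j : ℕ) (hn : n < g ^ (k + 1)) :
    (j ∈ F → dg g j (cc g F k e n) = dg g (e + j) n) ∧
    (j ∉ F → dg g j (cc g F k e n) = 0) := by
  classical
  have h := hD1 g (fun f => if f ∈ F then dg g (e + f) n else 0) (k + 1) j hg (by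
    intro i
    by_cases h : i ∈ F
    · simp only [h, if_true]
      exact dg_lt hg _ _
    · simp only [h, if_false]
      omega)
  rw [cc]
  rw [h]
  constructor
  · intro hj
    split_ifs with h1
    · rfl
    · symm
      apply dg_big
      exact lt_of_lt_of_le hn (Nat.pow_le_pow_right (by omega) (by omega))
  · intro hj
    split_ifs with h1
    · rfl
    · rfl

theorem cc_DS (hD1 : T_D1) (hg : 2 ≤ g) (F : Set ℕ) (k e n : ℕ) (hn : n < g ^ (k + 1)) :
    cc g F k e n ∈ DS g F := fun j hj => (dg_cc hD1 hg F k e n j hn).2 hj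

theorem dg_ext (hD3 : T_D3) (hg : 2 ≤ g) {x y : ℕ} (h : ∀ j, dg g j x = dg g j y) : x = y := by
  have hx := hD3 g (x + y + 1) x hg (lt_of_le_of_lt (by omega : x ≤ x + y + 1)
    (Nat.lt_pow_self (by omega)))
  have hy := hD3 g (x + y + 1) y hg (lt_of_le_of_lt (by omega : y ≤ x + y + 1)
    (Nat.lt_pow_self (by omega)))
  calc x = ∑ j ∈ range (x + y + 1), dg g j x * g ^ j := hx.symm
    _ = ∑ j ∈ range (x + y + 1), dg g j y * g ^ j := Finset.sum_congr rfl fun j _ => by rw [h j]
    _ = y := hy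

theorem cc_zero_of (hD1 : T_D1) (hD3 : T_D3) (hg : 2 ≤ g) (F : Set ℕ) (k n : ℕ)
    (hn : n < g ^ (k + 1)) (hF : n ∈ DS g F) : cc g F k 0 n = n := by
  apply dg_ext hD3 hg
  intro j
  by_cases hj : j ∈ F
  · rw [(dg_cc hD1 hg F k 0 n j hn).1 hj, Nat.zero_add]
  · rw [(dg_cc hD1 hg F k 0 n j hn).2 hj, hF j hj]

theorem ph_pow (hg : 2 ≤ g) (E F : Set ℕ) (k n e : ℕ) (he : e ∈ E) (hk : e ≤ k) :
    ph g E F k n (g ^ e) = cc g F k e n := by
  classical
  rw [ph, Finsupp.finsetSum_apply, Finset.sum_eq_single e]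
  · rw [Finsupp.single_eq_same]
  · intro b _ hb
    rw [Finsupp.single_apply, if_neg]
    intro h
    exact hb (Nat.pow_right_injective hg h)
  · intro h
    exact absurd (Finset.mem_filter.mpr ⟨Finset.mem_range.mpr (by omega), he⟩) h

theorem ph_ne (E F : Set ℕ) (k n a : ℕ) (h : ph g E F k n a ≠ 0) :
    ∃ e ∈ E, e ≤ k ∧ a = g ^ e := by
  classical
  rw [ph, Finsupp.finsetSum_apply] at h
  obtain ⟨e, he, h2⟩ := Finset.exists_ne_zero_of_sum_ne_zero h
  rw [Finset.mem_filter, Finset.mem_range] at he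
  rw [Finsupp.single_apply] at h2
  split_ifs at h2 with h3
  · exact ⟨e, he.2, by omega, h3.symm⟩
  · exact absurd rfl h2

end

section

variable {g : ℕ} {A M : Set ℕ} (C : Ctx g A M)
include C

/-- the sum of the digital representation -/
theorem ph_sum (hD3 : T_D3) (k n : ℕ) (hn : n < g ^ (k + 1))
    (hT : ∀ j ≤ k, ∃ e ∈ ex g A, ∃ f ∈ ex g M, e + f = j) :
    (ph g (ex g A) (ex g M) k n).sum (fun a m => m * a) = n := by
  classical
  have h0 : (ph g (ex g A) (ex g M) k n).sum (fun a m => m * a) =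
      ∑ e ∈ (range (k + 1)).filter (fun e => e ∈ ex g A), cc g (ex g M) k e n * g ^ e := by
    have h00 := Finsupp.sum_finsetSum_index (h := fun a m : ℕ => m * a)
      (s := (range (k + 1)).filter (fun e => e ∈ ex g A))
      (g := fun e => Finsupp.single (g ^ e) (cc g (ex g M) k e n))
      (fun _ => Nat.zero_mul _) (fun _ _ _ => Nat.add_mul _ _ _)
    rw [ph, ← h00]
    refine Finset.sum_congr rfl fun e _ => ?_
    rw [Finsupp.sum_single_index (by simp)]
  rw [h0]
  have h1 : ∀ e ∈ (range (k + 1)).filter (fun e => e ∈ ex g A), cc g (ex g M) k e n * g ^ e =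
      ∑ f ∈ (range (k + 1)).filter (fun f => f ∈ ex g M), dg g (e + f) n * g ^ (e + f) := by
    intro e _
    rw [cc, Finset.sum_mul, Finset.sum_filter]
    refine Finset.sum_congr rfl fun f _ => ?_
    split_ifs with h
    · rw [pow_add]; ring
    · simp
  rw [Finset.sum_congr rfl h1, ← Finset.sum_product']
  have h2 := hD3 g (k + 1) n C.hg hn
  conv_rhs => rw [← h2]
  symm
  apply Finset.sum_bij_ne_zero (i := fun j hj _ =>
    ((hT j (by have := Finset.mem_range.mp hj; omega)).choose,
      (hT j (by have := Finset.mem_range.mp hj; omega)).choose_spec.2.choose))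
  · intro j hj _
    have h3 := (hT j (by have := Finset.mem_range.mp hj; omega)).choose_spec
    have h4 := h3.2.choose_spec
    have h5 := Finset.mem_range.mp hj
    exact Finset.mem_product.mpr ⟨Finset.mem_filter.mpr
      ⟨Finset.mem_range.mpr (lt_of_le_of_lt (Nat.le_add_right _ _) (lt_of_eq_of_lt h4.2 h5)), h3.1⟩,
      Finset.mem_filter.mpr
      ⟨Finset.mem_range.mpr (lt_of_le_of_lt (Nat.le_add_left _ _) (lt_of_eq_of_lt h4.2 h5)), h4.1⟩⟩
  · intro j hj _ j' hj' _ h
    have h3 := (hT j (by have := Finset.mem_range.mp hj; omega)).choose_spec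
    have h3' := (hT j' (by have := Finset.mem_range.mp hj'; omega)).choose_spec
    have h4 := h3.2.choose_spec.2
    have h4' := h3'.2.choose_spec.2
    have h5 := (Prod.ext_iff.mp h).1
    have h6 := (Prod.ext_iff.mp h).2
    dsimp only at h5 h6
    omega
  · rintro ⟨e, f⟩ hp hne
    rw [Finset.mem_product, Finset.mem_filter, Finset.mem_filter, Finset.mem_range,
      Finset.mem_range] at hp
    dsimp only at hp hne ⊢
    have hj : e + f < k + 1 := by
      by_contra hlt
      apply hne
      rw [dg_big (lt_of_lt_of_le hn (Nat.pow_le_pow_right (gpos C) (by omega)))]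
      simp
    refine ⟨e + f, Finset.mem_range.mpr hj, hne, ?_⟩
    have h3 := (hT (e + f) (by omega)).choose_spec
    have h4 := h3.2.choose_spec
    obtain ⟨h5, h6⟩ := UQ C h3.1 hp.1.2 h4.1 hp.2.2 h4.2
    exact Prod.ext h5 h6
  · intro j hj _
    have h3 := (hT j (by have := Finset.mem_range.mp hj; omega)).choose_spec
    have h4 := h3.2.choose_spec.2
    dsimp only
    rw [h4]

end

/-- the induction hypothesis -/
structure Inv (g : ℕ) (A M : Set ℕ) (k : ℕ) : Prop where
  a : ∀ a ∈ A, a < g ^ k → ∃ e, a = g ^ e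
  b : ∀ m, 0 < m → m < g ^ k → (m ∈ M ↔ m ∈ DS g (ex g M))
  c : ∀ j < k, ∃ e ∈ ex g A, ∃ f ∈ ex g M, e + f = j

section

variable {g : ℕ} {A M : Set ℕ} (C : Ctx g A M)
include C

theorem rep_ph (hD3 : T_D3) (k n : ℕ) (hn : n < g ^ (k + 1))
    (hT : ∀ j ≤ k, ∃ e ∈ ex g A, ∃ f ∈ ex g M, e + f = j)
    (hv : ∀ e ∈ ex g A, e ≤ k → cc g (ex g M) k e n ≠ 0 → cc g (ex g M) k e n ∈ M) :
    Rep A M n (ph g (ex g A) (ex g M) k n) := by
  refine ⟨?_, ph_sum C hD3 k n hn hT⟩
  intro a ha
  obtain ⟨e, he, hek, rfl⟩ := ph_ne _ _ _ _ _ ha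
  rw [ph_pow C.hg _ _ _ _ _ he hek] at ha ⊢
  exact ⟨he, hv e he hek ha⟩

theorem cc_le (hD3 : T_D3) (k n e : ℕ) (hn : n < g ^ (k + 1))
    (hT : ∀ j ≤ k, ∃ e ∈ ex g A, ∃ f ∈ ex g M, e + f = j) (he : e ∈ ex g A) (hek : e ≤ k) :
    cc g (ex g M) k e n * g ^ e ≤ n := by
  have h := ph_sum C hD3 k n hn hT
  have h1 := ph_pow C.hg (ex g A) (ex g M) k n e he hek
  rw [← h1]
  conv_rhs => rw [← h]
  rw [Finsupp.sum]
  by_cases ha : g ^ e ∈ (ph g (ex g A) (ex g M) k n).support
  · exact Finset.single_le_sum (f := fun x => (ph g (ex g A) (ex g M) k n) x * x)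
      (fun _ _ => Nat.zero_le _) ha
  · rw [Finsupp.notMem_support_iff.mp ha]
    simp

/-- a new position is covered -/
theorem claimC (hD2 : T_D2) (hD4 : T_D4) (k : ℕ) (I : Inv g A M k) :
    ∃ e ∈ ex g A, ∃ f ∈ ex g M, e + f = k := by
  by_contra hno
  have hkA : g ^ k ∉ A := fun h => hno ⟨k, h, 0, F0 C, by omega⟩
  have hkM : g ^ k ∉ M := fun h => hno ⟨0, E0 C, k, h, by omega⟩
  obtain ⟨r, hr⟩ := C.ex (g ^ k)
  have h1 : ∀ a ∈ r.support, ∃ e ∈ ex g A, a = g ^ e := by
    intro a ha
    have ha0 := Finsupp.mem_support_iff.mp ha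
    obtain ⟨haA, haM⟩ := hr.1 a ha0
    have hle := rep_le hr a
    have hapos := C.hA a haA
    have hmpos := C.hM _ haM
    have hale : a ≤ g ^ k := le_trans (Nat.le_mul_of_pos_left a hmpos) hle
    have hne : a ≠ g ^ k := fun h => hkA (h ▸ haA)
    obtain ⟨e, he⟩ := I.a a haA (lt_of_le_of_ne hale hne)
    exact ⟨e, by rw [he] at haA; exact haA, he⟩
  have h2 : ∀ a ∈ r.support, r a ∈ DS g (ex g M) := by
    intro a ha
    have ha0 := Finsupp.mem_support_iff.mp ha
    obtain ⟨haA, haM⟩ := hr.1 a ha0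
    have hle := rep_le hr a
    have hapos := C.hA a haA
    have hmpos := C.hM _ haM
    have hrle : r a ≤ g ^ k := le_trans (Nat.le_mul_of_pos_right (r a) hapos) hle
    have hne : r a ≠ g ^ k := fun h => hkM (h ▸ haM)
    exact (I.b (r a) hmpos (lt_of_le_of_ne hrle hne)).mp haM
  have h3 := sumdig C hD2 hD4 r.support (fun a => r a) h1 h2
  have h4 : ∑ a ∈ r.support, r a * a = g ^ k := hr.2
  rw [h4] at h3
  have h5 : dg g k (g ^ k) = 1 := by
    have hg := C.hg
    rw [dg, Nat.div_self (pow_pos (gpos C) k), Nat.mod_eq_of_lt (by omega)]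
  have h6 : ¬ dg g k (g ^ k) = 0 := by rw [h5]; omega
  apply h6
  apply h3
  rintro ⟨e, f, _, he, hf, hef⟩
  exact hno ⟨e, he, f, hf, hef⟩

/-- all numbers with digits in the right places are multiplicities -/
theorem claimW (hD1 : T_D1) (hD2 : T_D2) (hD3 : T_D3) (hD4 : T_D4) (k : ℕ) (hk : 1 ≤ k)
    (I : Inv g A M k) : ∀ x, x < g ^ (k + 1) → x ∈ DS g (ex g M) → x ≠ 0 → x ∈ M := by
  have hg := C.hg
  have hT : ∀ j ≤ k, ∃ e ∈ ex g A, ∃ f ∈ ex g M, e + f = j := by
    intro j hj
    rcases Nat.lt_or_ge j k with h | h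
    · exact I.c j h
    · have : j = k := by omega
      rw [this]
      exact claimC C hD2 hD4 k I
  intro x
  induction x using Nat.strong_induction_on with
  | _ x ih =>
  intro hx hxF hx0
  by_contra hxM
  -- the representations below x are digital
  have hph : ∀ n < x, Rep A M n (ph g (ex g A) (ex g M) k n) := by
    intro n hn
    have hn' : n < g ^ (k + 1) := by omega
    apply rep_ph C hD3 k n hn' hT
    intro e he hek h0
    have hle := cc_le C hD3 k n e hn' hT he hek
    have hDS := cc_DS hD1 hg (ex g M) k e n hn'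
    rcases Nat.eq_zero_or_pos e with h | h
    · subst h
      rw [pow_zero, mul_one] at hle
      exact ih _ (by omega) (by omega) hDS h0
    · have h1 : cc g (ex g M) k e n < g ^ k := by
        by_contra hlt
        push Not at hlt
        have h2 : g ^ k * g ^ 1 ≤ cc g (ex g M) k e n * g ^ e :=
          Nat.mul_le_mul hlt (Nat.pow_le_pow_right (by omega) h)
        rw [← pow_add] at h2
        omega
      exact (I.b _ (by omega) h1).mpr hDS
  have huq : ∀ n < x, ∀ r, Rep A M n r → r = ph g (ex g A) (ex g M) k n :=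
    fun n hn r hr => C.uq n r _ hr (hph n hn)
  have hgk : g ^ k ≤ x := by
    by_contra hlt
    exact hxM ((I.b x (by omega) (by omega)).mpr hxF)
  obtain ⟨r, hr⟩ := C.ex x
  -- part one is not used
  have hW1 : r 1 = 0 := by
    by_contra h1
    obtain ⟨_, hyM⟩ := hr.1 1 h1
    have hyle := rep_le hr 1
    rw [mul_one] at hyle
    have hyne : r 1 ≠ x := fun h => hxM (h ▸ hyM)
    have her := rep_erase hr 1
    rw [mul_one] at her
    have h2 := huq (x - r 1) (by omega) _ her
    have h3 := huq (r 1) (by omega) _ (by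
      have := rep_single C.oneA hyM
      rwa [mul_one] at this)
    have h4 : cc g (ex g M) k 0 (x - r 1) = 0 := by
      have h5 := ph_pow hg (ex g A) (ex g M) k (x - r 1) 0 (E0 C) (by omega)
      rw [← h5, ← h2, pow_zero, Finsupp.erase_same]
    have h5 : cc g (ex g M) k 0 (r 1) = r 1 := by
      have h6 := ph_pow hg (ex g A) (ex g M) k (r 1) 0 (E0 C) (by omega)
      rw [← h6, ← h3, pow_zero, Finsupp.single_eq_same]
    have h6 : r 1 ∈ DS g (ex g M) := by
      rw [← h5]
      exact cc_DS hD1 hg _ _ _ _ (by omega)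
    have h7 : ∀ j ∈ ex g M, dg g j (x - r 1) = 0 := by
      intro j hj
      have := (dg_cc hD1 hg (ex g M) k 0 (x - r 1) j (by omega)).1 hj
      rw [h4, dg_zero, Nat.zero_add] at this
      exact this.symm
    have h8 : x - r 1 = 0 := by
      apply dg_ext hD3 hg
      intro j
      rw [dg_zero]
      by_cases hj : j ∈ ex g M
      · exact h7 j hj
      · have h9 := hD2 g (r 1) (x - r 1) hg (by
          intro j
          by_cases hj : j ∈ ex g M
          · exact Or.inr (h7 j hj)
          · exact Or.inl (h6 j hj)) j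
        rw [show r 1 + (x - r 1) = x by omega, hxF j hj] at h9
        omega
    omega
  -- the number x is a part
  have hxA : x ∈ A := by
    by_contra hxA
    have hall : ∀ b ∈ r.support, (∃ e ∈ ex g A, b = g ^ e) ∧ r b ∈ DS g (ex g M) := by
      intro b hb
      have hb0 := Finsupp.mem_support_iff.mp hb
      obtain ⟨hbA, hbM⟩ := hr.1 b hb0
      have hle := rep_le hr b
      have hbpos := C.hA b hbA
      have hmpos := C.hM _ hbM
      have hb1 : b ≠ 1 := fun h => hb0 (h ▸ hW1)
      rcases Nat.lt_or_ge (r b * b) x with hlt | hge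
      · have h2 := huq _ hlt _ (rep_single hbA hbM)
        have h3 : ph g (ex g A) (ex g M) k (r b * b) b = r b := by
          rw [← h2, Finsupp.single_eq_same]
        obtain ⟨e, he, hek, hbe⟩ := ph_ne (ex g A) (ex g M) k (r b * b) b (by rw [h3]; exact hb0)
        refine ⟨⟨e, he, hbe⟩, ?_⟩
        have h4 := ph_pow hg (ex g A) (ex g M) k (r b * b) e he hek
        rw [← hbe, h3] at h4
        rw [h4]
        exact cc_DS hD1 hg _ _ _ _ (by omega)
      · have hbx : b ≤ x := le_trans (Nat.le_mul_of_pos_left b hmpos) hle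
        have hbne : b ≠ x := fun h => hxA (h ▸ hbA)
        have hrx : r b < x := by
          have h5 : r b * 2 ≤ r b * b := Nat.mul_le_mul_left _ (by omega)
          omega
        have h2 := huq b (by omega) _ (by
          have := rep_single hbA (oneM C)
          rwa [one_mul] at this)
        have h3 : ph g (ex g A) (ex g M) k b b = 1 := by
          rw [← h2, Finsupp.single_eq_same]
        obtain ⟨e, he, hek, hbe⟩ := ph_ne (ex g A) (ex g M) k b b (by rw [h3]; omega)
        refine ⟨⟨e, he, hbe⟩, ?_⟩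
        have h4 := huq (r b) hrx _ (by
          have := rep_single C.oneA hbM
          rwa [mul_one] at this)
        have h6 := ph_pow hg (ex g A) (ex g M) k (r b) 0 (E0 C) (by omega)
        rw [← h4, pow_zero, Finsupp.single_eq_same] at h6
        rw [h6]
        exact cc_DS hD1 hg _ _ _ _ (by omega)
    have h1 := sumdig C hD2 hD4 r.support (fun a => r a) (fun b hb => (hall b hb).1)
      (fun b hb => (hall b hb).2)
    have h2 : ∑ a ∈ r.support, r a * a = x := hr.2
    rw [h2] at h1
    apply hx0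
    apply dg_ext hD3 hg
    intro j
    rw [dg_zero]
    by_cases hj : j ∈ ex g M
    · apply h1
      rintro ⟨e, f, he1, he, hf, hef⟩
      have h3 := (UQ C he (E0 C) hf hj (by omega)).1
      subst h3
      rw [pow_zero] at he1
      exact (Finsupp.mem_support_iff.mp he1) hW1
    · exact hxF j hj
  -- two representations of g ^ (k + 1)
  have hkF : k ∈ ex g M := by
    by_contra hkF
    have h1 := hxF k hkF
    rw [dg] at h1
    have h2 : x / g ^ k < g := by
      rw [Nat.div_lt_iff_lt_mul (pow_pos (gpos C) k), ← pow_succ']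
      exact hx
    rw [Nat.mod_eq_of_lt h2, Nat.div_eq_zero_iff] at h1
    rcases h1 with h1 | h1
    · exact absurd h1 (pow_pos (gpos C) k).ne'
    · omega
  have hxne : x ≠ g ^ k := fun h => hxM (h ▸ hkF)
  have hxpos : 0 < x := by omega
  set q := g ^ (k + 1) / x with hq
  have hq1 : 0 < q := Nat.div_pos (by omega) hxpos
  have hq2 : q < g := by
    rw [hq, Nat.div_lt_iff_lt_mul hxpos, pow_succ, mul_comm]
    exact Nat.mul_lt_mul_of_pos_left (by omega) (gpos C)
  have hrem : g ^ (k + 1) % x < x := Nat.mod_lt _ hxpos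
  have hr1 := rep_add (rep_single hxA (C.small q hq1 hq2)) (hph _ hrem) (by
    intro a
    by_cases ha : a = x
    · right
      subst ha
      by_contra h0
      have h1 := rep_le (hph _ hrem) a
      have h2 : 1 * a ≤ ph g (ex g A) (ex g M) k (g ^ (k + 1) % a) a * a :=
        Nat.mul_le_mul_right a (by omega)
      omega
    · left
      rw [Finsupp.single_apply, if_neg (fun h => ha h.symm)])
  have hsum : q * x + g ^ (k + 1) % x = g ^ (k + 1) := by
    rw [hq, mul_comm]
    exact Nat.div_add_mod _ _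
  rw [hsum] at hr1
  have hr2 := rep_single (A := A) (M := M) C.gA hkF
  rw [← pow_succ] at hr2
  have h1 := C.uq _ _ _ hr1 hr2
  have h2 : (Finsupp.single x q + ph g (ex g A) (ex g M) k (g ^ (k + 1) % x)) x =
      (Finsupp.single g (g ^ k)) x := by rw [h1]
  have hgx : g ≠ x := by
    have : g ^ 1 ≤ g ^ k := Nat.pow_le_pow_right (gpos C) hk
    rw [pow_one] at this
    omega
  rw [Finsupp.add_apply, Finsupp.single_eq_same, Finsupp.single_apply, if_neg hgx] at h2
  omega

end

section

variable {g : ℕ} {A M : Set ℕ} (C : Ctx g A M)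
include C

theorem inv_one (hsm : ∀ a ∈ A, a < g → a = 1) : Inv g A M 1 := by
  have hg := C.hg
  refine ⟨?_, ?_, ?_⟩
  · intro a ha hlt
    rw [pow_one] at hlt
    exact ⟨0, by rw [hsm a ha hlt, pow_zero]⟩
  · intro m hm hlt
    rw [pow_one] at hlt
    constructor
    · intro _ j hj
      apply dg_big
      have hj0 : j ≠ 0 := fun h => hj (h ▸ F0 C)
      calc m < g ^ 1 := by rw [pow_one]; exact hlt
        _ ≤ g ^ j := Nat.pow_le_pow_right (gpos C) (by omega)
    · intro _
      exact C.small m hm hlt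
  · intro j hj
    have : j = 0 := by omega
    subst this
    exact ⟨0, E0 C, 0, F0 C, rfl⟩

theorem inv_step (hD1 : T_D1) (hD2 : T_D2) (hD3 : T_D3) (hD4 : T_D4) (k : ℕ) (hk : 1 ≤ k)
    (I : Inv g A M k) : Inv g A M (k + 1) := by
  have hg := C.hg
  have hT : ∀ j ≤ k, ∃ e ∈ ex g A, ∃ f ∈ ex g M, e + f = j := by
    intro j hj
    rcases Nat.lt_or_ge j k with h | h
    · exact I.c j h
    · have : j = k := by omega
      rw [this]
      exact claimC C hD2 hD4 k I
  have hW := claimW C hD1 hD2 hD3 hD4 k hk I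
  have hph : ∀ n < g ^ (k + 1), Rep A M n (ph g (ex g A) (ex g M) k n) := by
    intro n hn
    apply rep_ph C hD3 k n hn hT
    intro e he hek h0
    have hle := cc_le C hD3 k n e hn hT he hek
    have hDS := cc_DS hD1 hg (ex g M) k e n hn
    apply hW _ _ hDS h0
    have : cc g (ex g M) k e n * 1 ≤ cc g (ex g M) k e n * g ^ e :=
      Nat.mul_le_mul_left _ (pow_pos (gpos C) e)
    omega
  refine ⟨?_, ?_, ?_⟩
  · intro a ha hlt
    have h1 := C.uq a _ _ (by
      have := rep_single ha (oneM C)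
      rwa [one_mul] at this) (hph a hlt)
    have h2 : ph g (ex g A) (ex g M) k a a = 1 := by rw [← h1, Finsupp.single_eq_same]
    obtain ⟨e, _, _, h3⟩ := ph_ne (ex g A) (ex g M) k a a (by rw [h2]; omega)
    exact ⟨e, h3⟩
  · intro m hm hlt
    constructor
    · intro hmM
      have h1 := C.uq m _ _ (by
        have := rep_single C.oneA hmM
        rwa [mul_one] at this) (hph m hlt)
      have h6 := ph_pow hg (ex g A) (ex g M) k m 0 (E0 C) (by omega)
      rw [← h1, pow_zero, Finsupp.single_eq_same] at h6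
      rw [h6]
      exact cc_DS hD1 hg _ _ _ _ hlt
    · intro hDS
      exact hW m hlt hDS (by omega)
  · intro j hj
    exact hT j (by omega)

theorem inv_all (hD1 : T_D1) (hD2 : T_D2) (hD3 : T_D3) (hD4 : T_D4)
    (hsm : ∀ a ∈ A, a < g → a = 1) : ∀ k, 1 ≤ k → Inv g A M k := by
  intro k hk
  induction k, hk using Nat.le_induction with
  | base => exact inv_one C hsm
  | succ k hk ih => exact inv_step C hD1 hD2 hD3 hD4 k hk ih

end

/-- Necessity. -/
theorem nec (hRB : T_RB) (hD1 : T_D1) (hD2 : T_D2) (hD3 : T_D3) (hD4 : T_D4) (A M : Set ℕ)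
    (hA : ∀ a ∈ A, 0 < a) (hM : ∀ m ∈ M, 0 < m) (H : ∀ n, pc A M n = 1) :
    ∃ g, 2 ≤ g ∧ ∃ E F : Set ℕ, Tile E F ∧ A = PA g E ∧ M = PM g F := by
  have hexu : ∀ n, ∃ r, {r | Rep A M n r} = {r} := by
    intro n
    have h1 := (hRB A M n hA).2
    rw [H n] at h1
    exact Set.ncard_eq_one.mp h1.symm
  have hex : ∀ n, ∃ r, Rep A M n r := by
    intro n
    obtain ⟨r, hr⟩ := hexu n
    exact ⟨r, by
      have : r ∈ {r | Rep A M n r} := by rw [hr]; exact Set.mem_singleton r
      exact this⟩
  have huq : ∀ n r r', Rep A M n r → Rep A M n r' → r = r' := by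
    intro n r r' h h'
    obtain ⟨s, hs⟩ := hexu n
    have h1 : r ∈ ({s} : Set (ℕ →₀ ℕ)) := by rw [← hs]; exact h
    have h2 : r' ∈ ({s} : Set (ℕ →₀ ℕ)) := by rw [← hs]; exact h'
    rw [Set.mem_singleton_iff] at h1 h2
    rw [h1, h2]
  -- one is a part and a multiplicity
  have h11 : 1 ∈ A ∧ 1 ∈ M := by
    obtain ⟨r, hr⟩ := hex 1
    have hne : ∃ a, r a ≠ 0 := by
      by_contra hno
      push Not at hno
      have h0 : r = 0 := Finsupp.ext hno
      have h1 := hr.2
      rw [h0, Finsupp.sum_zero_index] at h1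
      omega
    obtain ⟨a, ha⟩ := hne
    obtain ⟨haA, haM⟩ := hr.1 a ha
    have hle := rep_le hr a
    have h1 := hA a haA
    have h2 := hM _ haM
    have h3 : a ≤ 1 := le_trans (Nat.le_mul_of_pos_left a h2) hle
    have h4 : r a ≤ 1 := le_trans (Nat.le_mul_of_pos_right (r a) h1) hle
    have h5 : a = 1 := by omega
    have h6 : r a = 1 := by omega
    rw [h6] at haM
    rw [h5] at haA
    exact ⟨haA, haM⟩
  obtain ⟨h1A, h1M⟩ := h11
  have hsingle : ∀ a ∈ A, a ∈ M → a = 1 := by
    intro a haA haM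
    have h1 := rep_single (A := A) (M := M) haA h1M
    have h2 := rep_single (A := A) (M := M) h1A haM
    rw [one_mul] at h1
    rw [mul_one] at h2
    have h3 := huq a _ _ h1 h2
    by_contra hne
    have h4 : (Finsupp.single a 1) a = (Finsupp.single 1 a) a := by rw [h3]
    rw [Finsupp.single_eq_same, Finsupp.single_apply, if_neg (fun h => hne h.symm)] at h4
    omega
  by_cases hall : ∀ m, 0 < m → m ∈ M
  · refine ⟨2, le_refl 2, {0}, Set.univ, ?_, ?_, ?_⟩
    · intro k
      refine ⟨(0, k), ⟨rfl, trivial, by simp⟩, ?_⟩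
      rintro ⟨e, f⟩ ⟨h1, _, h3⟩
      have h1' : e = 0 := h1
      subst h1'
      have h3' : 0 + f = k := h3
      rw [Nat.zero_add] at h3'
      rw [h3']
    · ext a
      constructor
      · intro ha
        exact ⟨0, rfl, by rw [pow_zero]; exact hsingle a ha (hall a (hA a ha))⟩
      · rintro ⟨e, he, rfl⟩
        have he' : e = 0 := he
        subst he'
        rw [pow_zero]
        exact h1A
    · ext m
      constructor
      · intro hm
        exact ⟨hM m hm, fun j hj => absurd trivial hj⟩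
      · intro hm
        exact hall m hm.1
  · push Not at hall
    classical
    obtain ⟨hg1, hg2⟩ := Nat.find_spec hall
    set g := Nat.find hall with hgdef
    have hsmall : ∀ m, 0 < m → m < g → m ∈ M := by
      intro m hm hlt
      by_contra hno
      exact Nat.find_min hall hlt ⟨hm, hno⟩
    have hg : 2 ≤ g := by
      by_contra hlt
      have : g = 1 := by omega
      rw [this] at hg2
      exact hg2 h1M
    have hsm : ∀ a ∈ A, a < g → a = 1 := fun a ha hlt => hsingle a ha (hsmall a (hA a ha) hlt)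
    have hgA : g ∈ A := by
      obtain ⟨r, hr⟩ := hex g
      by_contra hgA
      have hsup : ∀ a, a ≠ 1 → r a = 0 := by
        intro a ha1
        by_contra h0
        obtain ⟨haA, haM⟩ := hr.1 a h0
        have hle := rep_le hr a
        have h2 := hM _ haM
        have h3 : a ≤ g := le_trans (Nat.le_mul_of_pos_left a h2) hle
        have h4 : a ≠ g := fun h => hgA (h ▸ haA)
        exact ha1 (hsm a haA (by omega))
      have h1 : r = Finsupp.single 1 (r 1) := by
        ext a
        by_cases ha : a = 1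
        · subst ha
          rw [Finsupp.single_eq_same]
        · rw [hsup a ha, Finsupp.single_apply, if_neg (fun h => ha h.symm)]
      have h2 := hr.2
      rw [h1, Finsupp.sum_single_index (by simp), mul_one] at h2
      have h3 : r 1 ≠ 0 := by omega
      have h4 := (hr.1 1 h3).2
      rw [h2] at h4
      exact hg2 h4
    have C : Ctx g A M := ⟨hg, hA, hM, huq, hex, h1A, hsmall, hgA, hg2⟩
    have hI := inv_all C hD1 hD2 hD3 hD4 hsm
    refine ⟨g, hg, ex g A, ex g M, ?_, ?_, ?_⟩
    · intro k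
      obtain ⟨e, he, f, hf, hef⟩ := (hI (k + 1) (by omega)).c k (by omega)
      refine ⟨(e, f), ⟨he, hf, hef⟩, ?_⟩
      rintro ⟨e', f'⟩ ⟨he', hf', hef'⟩
      have h1 : e' + f' = k := hef'
      obtain ⟨h2, h3⟩ := UQ C he' he hf' hf (by omega)
      exact Prod.ext h2 h3
    · ext a
      constructor
      · intro ha
        obtain ⟨e, he⟩ := (hI (a + 1) (by omega)).a a ha
          (lt_of_lt_of_le (Nat.lt_pow_self (by omega)) (Nat.pow_le_pow_right (by omega) (by omega)))
        refine ⟨e, ?_, he⟩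
        rw [he] at ha
        exact ha
      · rintro ⟨e, he, rfl⟩
        exact he
    · ext m
      constructor
      · intro hm
        exact ⟨hM m hm, ((hI (m + 1) (by omega)).b m (hM m hm)
          (lt_of_lt_of_le (Nat.lt_pow_self (by omega))
            (Nat.pow_le_pow_right (by omega) (by omega)))).mp hm⟩
      · rintro ⟨hm, hDS⟩
        exact ((hI (m + 1) (by omega)).b m hm
          (lt_of_lt_of_le (Nat.lt_pow_self (by omega))
            (Nat.pow_le_pow_right (by omega) (by omega)))).mpr hDS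

/-- Sufficiency. -/
theorem suf (hU : T_U) (g : ℕ) (hg : 2 ≤ g) (E F : Set ℕ) (hT : Tile E F) (n : ℕ) :
    pc (PA g E) (PM g F) n = 1 := by
  classical
  have h := hU g E F hg (by
    intro e he e' he' f hf f' hf' heq
    have h1 := (hT (e + f)).unique (y₁ := (e, f)) (y₂ := (e', f')) ⟨he, hf, rfl⟩
      ⟨he', hf', heq.symm⟩
    exact (Prod.ext_iff.mp h1).1) n
  rw [h, if_pos]
  intro j hj
  exfalso
  apply hj
  obtain ⟨⟨e, f⟩, ⟨h1, h2, h3⟩, _⟩ := hT j
  exact ⟨e, h1, f, h2, h3⟩

/-- WU. The pairs `A`, `M` for which every `n` has exactly one representation. -/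
theorem main (hRB : T_RB) (hD1 : T_D1) (hD2 : T_D2) (hD3 : T_D3) (hD4 : T_D4) (hU : T_U)
    (A M : Set ℕ) (hA : ∀ a ∈ A, 0 < a) (hM : ∀ m ∈ M, 0 < m) :
    (∀ n, pc A M n = 1) ↔
      ∃ g, 2 ≤ g ∧ ∃ E F : Set ℕ, Tile E F ∧ A = PA g E ∧ M = PM g F := by
  constructor
  · exact nec hRB hD1 hD2 hD3 hD4 A M hA hM
  · rintro ⟨g, hg, E, F, hT, rfl, rfl⟩ n
    exact suf hU g hg E F hT n

end Pool.Agent.H25.PG.WU
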